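import Pool.Agent.H8.BIG.Targets

/-!
# Row LNH: powers of linear forms with general values at finitely many points
-/

open MvPolynomial
open Pool.Agent.H12.ZD (pmap v O Res DenseOrbit NoInv)
open Pool.Agent.H18.HIT Pool.Agent.H8.BIG

namespace Pool.Agent.H46.BIG

theorem pf_LNH : T_LNH := by
  classical
  intro N k _ _ E r x hr hx0 hxp ρ
  -- the linear form in the parameters
  let l : (Fin N → k) → Po N k := fun y => ∑ i, C (y i) * X i
  have hl : ∀ y u : Fin N → k, eval u (l y) = ∑ i, y i * u i := by
    intro y u
    simp [l, map_sum]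
  let G : Fin E → Fin E → Po N k := fun a b => (l (x a)) ^ r - C (ρ a b) * (l (x b)) ^ r
  have hl0 : ∀ a, l (x a) ≠ 0 := by
    intro a h
    apply hx0 a
    funext i
    have h1 := hl (x a) (Pi.single i 1)
    rw [h, map_zero] at h1
    rw [Finset.sum_eq_single i] at h1
    · simpa using h1.symm
    · intro j _ hj
      simp [Pi.single_eq_of_ne hj]
    · intro h2; exact absurd (Finset.mem_univ i) h2
  have hG0 : ∀ a b, a ≠ b → G a b ≠ 0 := by
    intro a b hab h
    have h1 := hxp a b hab
    unfold Prop2 at h1
    push Not at h1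
    obtain ⟨s, t, hst⟩ := h1
    set u : Fin N → k := fun i => (if i = s then x b t else 0) - (if i = t then x b s else 0)
      with hu
    have hdot : ∀ y : Fin N → k, eval u (l y) = y s * x b t - y t * x b s := by
      intro y
      rw [hl]
      have : ∀ i, y i * u i
          = (if i = s then y i * x b t else 0) - (if i = t then y i * x b s else 0) := by
        intro i
        simp only [hu]
        split_ifs <;> ring
      rw [Finset.sum_congr rfl (fun i _ => this i), Finset.sum_sub_distrib,
        Finset.sum_ite_eq' Finset.univ s, Finset.sum_ite_eq' Finset.univ t]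
      simp
    have h2 : eval u (G a b) = (x a s * x b t - x a t * x b s) ^ r := by
      simp only [G, map_sub, map_mul, map_pow, eval_C, hdot]
      have : x b s * x b t - x b t * x b s = 0 := by ring
      rw [this, zero_pow (by omega), mul_zero, sub_zero]
    rw [h, map_zero] at h2
    have h3 := pow_eq_zero_iff (by omega : r ≠ 0) |>.1 h2.symm
    exact hst (sub_eq_zero.1 h3)
  let P : Po N k := (∏ a, l (x a)) *
    ∏ p : Fin E × Fin E, if p.1 = p.2 then (1 : Po N k) else G p.1 p.2
  have hP : P ≠ 0 := by
    refine mul_ne_zero ?_ ?_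
    · exact Finset.prod_ne_zero_iff.2 (fun a _ => hl0 a)
    · refine Finset.prod_ne_zero_iff.2 (fun p _ => ?_)
      split_ifs with h
      · exact one_ne_zero
      · exact hG0 _ _ h
  obtain ⟨u, hu⟩ : ∃ u, eval u P ≠ 0 := by
    by_contra hcon
    push Not at hcon
    apply hP
    apply MvPolynomial.funext
    intro z
    rw [hcon z, map_zero]
  have hu1 : ∀ a, eval u (l (x a)) ≠ 0 := by
    intro a h
    apply hu
    simp only [P, map_mul, map_prod]
    rw [Finset.prod_eq_zero (Finset.mem_univ a) h, zero_mul]
  have hu2 : ∀ a b, a ≠ b → eval u (G a b) ≠ 0 := by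
    intro a b hab h
    apply hu
    have h5 : ∏ p : Fin E × Fin E, eval u (if p.1 = p.2 then (1 : Po N k) else G p.1 p.2) = 0 := by
      apply Finset.prod_eq_zero (Finset.mem_univ (a, b))
      show eval u (if a = b then (1 : Po N k) else G a b) = 0
      rw [if_neg hab, h]
    simp only [P, map_mul, map_prod]
    rw [h5, mul_zero]
  have hev : ∀ a, eval (x a) ((∑ i, C (u i) * X i : Po N k) ^ r)
      = (eval u (l (x a))) ^ r := by
    intro a
    have h6 : eval (x a) (∑ i, C (u i) * X i : Po N k) = eval u (l (x a)) := by
      rw [hl (x a) u]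
      simp only [map_sum, map_mul, eval_C, eval_X]
      exact Finset.sum_congr rfl (fun i _ => mul_comm _ _)
    rw [map_pow, h6]
  refine ⟨(∑ i, C (u i) * X i) ^ r, ?_, ?_, ?_⟩
  · have h1 : (∑ i, C (u i) * X i : Po N k).IsHomogeneous 1 := by
      apply MvPolynomial.IsHomogeneous.sum
      intro i _
      have := (isHomogeneous_C (Fin N) (u i)).mul (isHomogeneous_X k i)
      simpa using this
    have := h1.pow r
    simpa using this
  · intro a
    rw [hev]
    exact pow_ne_zero _ (hu1 a)
  · intro a b hab h
    apply hu2 a b hab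
    rw [hev, hev] at h
    simp only [G, map_sub, map_mul, map_pow, eval_C]
    exact sub_eq_zero.2 h

end Pool.Agent.H46.BIG
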