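import Pool.Agent.H8.BIG.Targets
import Pool.Agent.H8.P2.TOT

/-!
# Row NRM: norms of polynomials which do not vanish on a totally invariant variety
-/

open MvPolynomial
open Pool.Agent.H12.ZD (pmap v O Res DenseOrbit NoInv)
open Pool.Agent.H18.HIT Pool.Agent.H8.BIG

namespace Pool.Agent.H46.BIG

theorem pf_NRM : T_NRM := by
  classical
  intro N k _ G θ Φ Δ R I h hI hGI hΔ hb q hq
  have hE : 0 < Φ.natDegree := Pool.Agent.H8.P2.natDegree_pos h
  set E := Φ.natDegree with hEdef
  -- a common denominator
  have hbas : ∀ i : Fin E, ∃ (M : ℕ) (c : Fin E → Po N k),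
      aeval G Δ ^ M * (q * θ ^ (i : ℕ)) = ∑ j : Fin E, θ ^ (j : ℕ) * aeval G (c j) :=
    fun i => Pool.Agent.H8.P2.bas h (q * θ ^ (i : ℕ))
  choose M c hc using hbas
  set K : ℕ := ∑ i, M i with hK
  have hMK : ∀ i, M i ≤ K := fun i =>
    Finset.single_le_sum (f := M) (fun _ _ => Nat.zero_le _) (Finset.mem_univ i)
  let a : Matrix (Fin E) (Fin E) (Po N k) := fun i j => Δ ^ (K - M i) * c i j
  set s : Po N k := aeval G Δ ^ K * q with hs
  have ha : ∀ i : Fin E, s * θ ^ (i : ℕ) = ∑ j : Fin E, θ ^ (j : ℕ) * aeval G (a i j) := by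
    intro i
    have h1 : s * θ ^ (i : ℕ) = aeval G Δ ^ (K - M i) * (aeval G Δ ^ M i * (q * θ ^ (i : ℕ))) := by
      rw [hs]
      have : aeval G Δ ^ K = aeval G Δ ^ (K - M i) * aeval G Δ ^ M i := by
        rw [← pow_add, Nat.sub_add_cancel (hMK i)]
      rw [this]; ring
    rw [h1, hc i, Finset.mul_sum]
    apply Finset.sum_congr rfl
    intro j _
    simp only [a, map_mul, map_pow]
    ring
  have hsI : s ∉ I := by
    intro h1
    rcases hI.mem_or_mem h1 with h2 | h2
    · exact hΔ (hI.mem_of_pow_mem _ h2)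
    · exact hq h2
  refine ⟨a.det, ?_, ?_⟩
  · -- the determinant is not in `I`
    intro hdet
    have := hI
    have h1 : (a.map (Ideal.Quotient.mk I)).det = 0 := by
      rw [← RingHom.mapMatrix_apply, ← RingHom.map_det]
      exact Ideal.Quotient.eq_zero_iff_mem.2 hdet
    obtain ⟨w, hw0, hw⟩ := Matrix.exists_vecMul_eq_zero_iff.2 h1
    choose v hv using fun i => Ideal.Quotient.mk_surjective (w i)
    have h2 : ∀ j, ∑ i, v i * a i j ∈ I := by
      intro j
      have h3 := congrFun hw j
      rw [← Ideal.Quotient.eq_zero_iff_mem, map_sum]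
      simp only [Matrix.vecMul, dotProduct, Matrix.map_apply, Pi.zero_apply] at h3
      rw [← h3]
      apply Finset.sum_congr rfl
      intro i _
      rw [map_mul, hv i]
    have h4 : s * ∑ i : Fin E, θ ^ (i : ℕ) * aeval G (v i) ∈ I := by
      have h5 : s * ∑ i : Fin E, θ ^ (i : ℕ) * aeval G (v i)
          = ∑ j : Fin E, θ ^ (j : ℕ) * aeval G (∑ i, v i * a i j) := by
        rw [Finset.mul_sum]
        have h6 : ∀ i : Fin E, s * (θ ^ (i : ℕ) * aeval G (v i))
            = ∑ j : Fin E, θ ^ (j : ℕ) * aeval G (v i * a i j) := by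
          intro i
          have : s * (θ ^ (i : ℕ) * aeval G (v i)) = (s * θ ^ (i : ℕ)) * aeval G (v i) := by ring
          rw [this, ha i, Finset.sum_mul]
          apply Finset.sum_congr rfl
          intro j _
          rw [map_mul (aeval G) (v i) (a i j)]; ring
        rw [Finset.sum_congr rfl (fun i _ => h6 i), Finset.sum_comm]
        apply Finset.sum_congr rfl
        intro j _
        rw [map_sum, Finset.mul_sum]
      rw [h5]
      exact I.sum_mem (fun j _ => I.mul_mem_left _ (hGI _ (h2 j)))
    have h7 := (hI.mem_or_mem h4).resolve_left hsI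
    have h8 := hb v h7
    apply hw0
    funext i
    rw [← hv i]
    exact Ideal.Quotient.eq_zero_iff_mem.2 (h8 i)
  · -- divisibility
    set A' : Matrix (Fin E) (Fin E) (Po N k) := a.map (aeval G) with hA'
    have h1 : (Matrix.scalar (Fin E) s - A').det = 0 := by
      apply Matrix.exists_mulVec_eq_zero_iff.1
      refine ⟨fun j => θ ^ (j : ℕ), ?_, ?_⟩
      · intro h2
        have h3 := congrFun h2 ⟨0, hE⟩
        simp at h3
      · funext i
        rw [Matrix.sub_mulVec]
        simp only [Pi.sub_apply, Pi.zero_apply]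
        have h3 : (Matrix.scalar (Fin E) s).mulVec (fun j : Fin E => θ ^ (j : ℕ)) i
            = s * θ ^ (i : ℕ) := by
          simp [Matrix.scalar_apply, Matrix.mulVec_diagonal]
        have h4 : A'.mulVec (fun j : Fin E => θ ^ (j : ℕ)) i
            = ∑ j : Fin E, θ ^ (j : ℕ) * aeval G (a i j) := by
          simp only [Matrix.mulVec, dotProduct, hA', Matrix.map_apply]
          apply Finset.sum_congr rfl
          intro j _
          ring
        rw [h3, h4, ha i, sub_self]
    have h2 : s ∣ A'.det := by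
      have h3 := Polynomial.sub_dvd_eval_sub s 0 A'.charpoly
      rw [sub_zero, Matrix.eval_charpoly, Matrix.eval_charpoly, h1, zero_sub] at h3
      have h4 : (Matrix.scalar (Fin E) (0 : Po N k) - A').det = (-1) ^ E * A'.det := by
        rw [map_zero, zero_sub, Matrix.det_neg, Fintype.card_fin]
      rw [h4, dvd_neg] at h3
      have h5 : IsUnit ((-1 : Po N k) ^ E) := (isUnit_one.neg).pow E
      exact (h5.dvd_mul_left).1 h3
    have h6 : A'.det = aeval G a.det := by
      rw [hA', AlgHom.map_det]
      rfl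
    rw [← h6]
    exact dvd_trans (Dvd.intro_left _ rfl) h2

end Pool.Agent.H46.BIG
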